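import Mathlib
import Pool.Agent.H770R2.Kad.Props

/-! Continuity at `0` (task NULL of h770k, helper439). -/

open scoped ComplexOrder InnerProductSpace

noncomputable section

namespace H770R2.Kad

open H759R2.Kad

universe u v

namespace Null

variable {A : Type u} [CStarAlgebra A]
  {H : Type v} [NormedAddCommGroup H] [InnerProductSpace ℂ H] [CompleteSpace H]

theorem sa (h1 : G_kad.{u, v}) (π : A →⋆ₐ[ℂ] (H →L[ℂ] H)) (D : A →ₗ[ℂ] (H →L[ℂ] H))
    (hD : IsDv π D) (C : ℝ) (hC : 0 ≤ C) (hb : ∀ a, ‖D a‖ ≤ C * ‖a‖) (b : Ix H → A)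
    (hsa : ∀ i, IsSelfAdjoint (b i)) (R : ℝ) (hR : 0 < R) (hbR : ∀ i, ‖b i‖ ≤ R)
    (hlim : ∀ ζ, Filter.Tendsto (fun i => π (b i) ζ) Filter.atTop (nhds 0)) (ξ η : H) :
    Filter.Tendsto (fun i => ⟪η, D (b i) ξ⟫_ℂ) Filter.atTop (nhds 0) := by
  let c : Ix H → A := fun i => ((R⁻¹ : ℝ) : ℂ) • b i
  have hcsa : ∀ i, IsSelfAdjoint (c i) := by
    intro i
    change star (((R⁻¹ : ℝ) : ℂ) • b i) = ((R⁻¹ : ℝ) : ℂ) • b i
    rw [star_smul, (hsa i).star_eq, Complex.star_def, Complex.conj_ofReal]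
  have hcn : ∀ i, ‖c i‖ ≤ 1 := by
    intro i
    change ‖((R⁻¹ : ℝ) : ℂ) • b i‖ ≤ 1
    rw [norm_smul, Complex.norm_real, Real.norm_of_nonneg (inv_nonneg.2 hR.le),
      inv_mul_le_iff₀ hR, mul_one]
    exact hbR i
  have hbc : ∀ i, b i = (R : ℂ) • c i := by
    intro i
    change b i = (R : ℂ) • ((R⁻¹ : ℝ) : ℂ) • b i
    rw [smul_smul, ← Complex.ofReal_mul, mul_inv_cancel₀ hR.ne', Complex.ofReal_one, one_smul]
  have hbound : ∀ i, ‖⟪η, D (b i) ξ⟫_ℂ‖ ≤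
      R * (2 * C * (√(‖π (c i) η‖ * ‖η‖) * ‖ξ‖ + ‖η‖ * √(‖π (c i) ξ‖ * ‖ξ‖))) := by
    intro i
    have h2 := h1 A H π D hD C hC hb (c i) (hcsa i) (hcn i) ξ η
    rw [hbc i, map_smul, smul_apply, inner_smul_right, norm_mul,
      Complex.norm_real, Real.norm_of_nonneg hR.le]
    exact mul_le_mul_of_nonneg_left h2 hR.le
  have hcl : ∀ ζ, Filter.Tendsto (fun i => ‖π (c i) ζ‖) Filter.atTop (nhds 0) := by
    intro ζ
    have h2 : Filter.Tendsto (fun i => ((R⁻¹ : ℝ) : ℂ) • π (b i) ζ) Filter.atTop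
        (nhds (((R⁻¹ : ℝ) : ℂ) • (0 : H))) := (hlim ζ).const_smul _
    have h3 := h2.norm
    rw [smul_zero, norm_zero] at h3
    refine h3.congr (fun i => ?_)
    change ‖((R⁻¹ : ℝ) : ℂ) • π (b i) ζ‖ = ‖π (((R⁻¹ : ℝ) : ℂ) • b i) ζ‖
    rw [map_smul, smul_apply]
  have hlim2 : Filter.Tendsto (fun i =>
      R * (2 * C * (√(‖π (c i) η‖ * ‖η‖) * ‖ξ‖ + ‖η‖ * √(‖π (c i) ξ‖ * ‖ξ‖)))) Filter.atTop
      (nhds (R * (2 * C * (√(0 * ‖η‖) * ‖ξ‖ + ‖η‖ * √(0 * ‖ξ‖))))) := by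
    refine Filter.Tendsto.const_mul _ (Filter.Tendsto.const_mul _ (Filter.Tendsto.add ?_ ?_))
    · refine Filter.Tendsto.mul_const _ ?_
      exact (Real.continuous_sqrt.tendsto _).comp ((hcl η).mul_const _)
    · refine Filter.Tendsto.const_mul _ ?_
      exact (Real.continuous_sqrt.tendsto _).comp ((hcl ξ).mul_const _)
  have hzero : R * (2 * C * (√(0 * ‖η‖) * ‖ξ‖ + ‖η‖ * √(0 * ‖ξ‖))) = 0 := by
    simp
  rw [hzero] at hlim2
  exact squeeze_zero_norm hbound hlim2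

end Null

theorem prove_null (h1 : G_kad.{u, v}) : G_null.{u, v} := by
  intro A _ H _ _ _ π D hD C hC hb a hconv ξ η
  obtain ⟨r, hr⟩ := hconv.bdd
  have hlim : ∀ ζ, Filter.Tendsto (fun i => π (a i) ζ) Filter.atTop (nhds 0) := by
    intro ζ
    simpa using hconv.lim ζ
  have hslim : ∀ ζ, Filter.Tendsto (fun i => π (star (a i)) ζ) Filter.atTop (nhds 0) := by
    intro ζ
    simpa using hconv.slim ζ
  have hR : 0 < max r 1 := lt_of_lt_of_le one_pos (le_max_right _ _)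
  let b : Ix H → A := fun i => (2⁻¹ : ℂ) • (a i + star (a i))
  let c : Ix H → A := fun i => (-(Complex.I) * 2⁻¹ : ℂ) • (a i - star (a i))
  have hnorm : ∀ i, ‖a i‖ ≤ max r 1 := fun i => le_trans (hr i) (le_max_left _ _)
  have hb1 := Null.sa h1 π D hD C hC hb b (by
    intro i
    change star ((2⁻¹ : ℂ) • (a i + star (a i))) = (2⁻¹ : ℂ) • (a i + star (a i))
    rw [star_smul, star_add, star_star, add_comm]
    congr 1
    simp) (max r 1) hR (by
    intro i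
    change ‖(2⁻¹ : ℂ) • (a i + star (a i))‖ ≤ max r 1
    rw [norm_smul]
    have h2 : ‖a i + star (a i)‖ ≤ ‖a i‖ + ‖star (a i)‖ := norm_add_le _ _
    rw [norm_star] at h2
    have h3 := hnorm i
    have h4 : ‖(2⁻¹ : ℂ)‖ = 2⁻¹ := by simp
    rw [h4]
    linarith) (by
    intro ζ
    have h2 := ((hlim ζ).add (hslim ζ)).const_smul (2⁻¹ : ℂ)
    rw [add_zero, smul_zero] at h2
    refine h2.congr (fun i => ?_)
    change (2⁻¹ : ℂ) • (π (a i) ζ + π (star (a i)) ζ) = π ((2⁻¹ : ℂ) • (a i + star (a i))) ζ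
    rw [map_smul, map_add, smul_apply, add_apply]) ξ η
  have hc1 := Null.sa h1 π D hD C hC hb c (by
    intro i
    change star ((-(Complex.I) * 2⁻¹ : ℂ) • (a i - star (a i))) =
      (-(Complex.I) * 2⁻¹ : ℂ) • (a i - star (a i))
    have h2 : star (-(Complex.I) * 2⁻¹ : ℂ) = -(-(Complex.I) * 2⁻¹ : ℂ) := by
      simp
    rw [star_smul, star_sub, star_star, h2, neg_smul, ← smul_neg, neg_sub]) (max r 1) hR (by
    intro i
    change ‖(-(Complex.I) * 2⁻¹ : ℂ) • (a i - star (a i))‖ ≤ max r 1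
    rw [norm_smul]
    have h2 : ‖a i - star (a i)‖ ≤ ‖a i‖ + ‖star (a i)‖ := norm_sub_le _ _
    rw [norm_star] at h2
    have h3 := hnorm i
    have h4 : ‖(-(Complex.I) * 2⁻¹ : ℂ)‖ = 2⁻¹ := by simp
    rw [h4]
    linarith) (by
    intro ζ
    have h2 := ((hlim ζ).sub (hslim ζ)).const_smul (-(Complex.I) * 2⁻¹ : ℂ)
    rw [sub_zero, smul_zero] at h2
    refine h2.congr (fun i => ?_)
    change (-(Complex.I) * 2⁻¹ : ℂ) • (π (a i) ζ - π (star (a i)) ζ) =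
      π ((-(Complex.I) * 2⁻¹ : ℂ) • (a i - star (a i))) ζ
    rw [map_smul, map_sub, smul_apply, sub_apply]) ξ η
  have hsum := hb1.add (hc1.const_mul Complex.I)
  rw [mul_zero, add_zero] at hsum
  refine hsum.congr (fun i => ?_)
  have hai : a i = b i + Complex.I • c i := by
    change a i = (2⁻¹ : ℂ) • (a i + star (a i)) +
      Complex.I • (-(Complex.I) * 2⁻¹ : ℂ) • (a i - star (a i))
    rw [smul_smul]
    have h2 : Complex.I * (-(Complex.I) * 2⁻¹) = (2⁻¹ : ℂ) := by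
      rw [← mul_assoc, mul_neg, Complex.I_mul_I, neg_neg, one_mul]
    rw [h2, ← smul_add]
    have h3 : a i + star (a i) + (a i - star (a i)) = (2 : ℂ) • a i := by
      rw [two_smul]
      abel
    rw [h3, smul_smul, inv_mul_cancel₀ (by norm_num : (2 : ℂ) ≠ 0), one_smul]
  have hDa : D (a i) = D (b i) + Complex.I • D (c i) :=
    (congrArg D hai).trans ((map_add D _ _).trans
      (congrArg (fun x => D (b i) + x) (map_smul D Complex.I (c i))))
  change ⟪η, D (b i) ξ⟫_ℂ + Complex.I * ⟪η, D (c i) ξ⟫_ℂ = ⟪η, D (a i) ξ⟫_ℂ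
  rw [hDa, add_apply, smul_apply,
    inner_add_right, inner_smul_right]

end H770R2.Kad
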